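import Pool.Agent.H68.GP.Targets

/-!
# MP_c62aed_lc, module ENG: generic encoding into formulas of exact width
-/

namespace Pool.Agent.H34.GP

open Finset Pool.Agent.H68.AC Pool.Agent.H68.GP

section

variable {V : Type} {k n w : ℕ}

/-- The variable of the input selected by a constraint and a local assignment. -/
noncomputable def vt (val : Fin k → (Fin n → Bool) → V) (π : Fin k → Fin w → Fin n)
    (p : Fin k × (Fin w → Bool)) : V :=
  val p.1 (Function.extend (π p.1) p.2 (fun _ => false))

open Classical in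
/-- The literal number `i` of the clause of `p`. -/
noncomputable def lit (val : Fin k → (Fin n → Bool) → V) (π : Fin k → Fin w → Fin n) (v₀ : Fin n)
    (i0 : Fin w) (y : V → Bool) (p : Fin k × (Fin w → Bool)) (i : Fin w) : Fin n × Bool :=
  if i = i0 ∧ y (vt val π p) = true then (v₀, true) else (π p.1 i, !p.2 i)

open Classical in
/-- The entries. -/
noncomputable def ent (val : Fin k → (Fin n → Bool) → V) (π : Fin k → Fin w → Fin n) (v₀ : Fin n)
    (i0 : Fin w) (p : Fin k × (Fin w → Bool)) (q : Fin n × Bool) : Bool × Inp V :=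
  if ∃ i, i ≠ i0 ∧ q = (π p.1 i, !p.2 i) then (false, Inp.const true)
  else if q = (π p.1 i0, !p.2 i0) then (true, Inp.var (vt val π p))
  else if q = (v₀, true) then (false, Inp.var (vt val π p))
  else (false, Inp.const false)

theorem ent_spec (val : Fin k → (Fin n → Bool) → V) (π : Fin k → Fin w → Fin n) (v₀ : Fin n)
    (i0 : Fin w) (y : V → Bool) (p : Fin k × (Fin w → Bool)) (q : Fin n × Bool)
    (hv : ∀ i, π p.1 i ≠ v₀) :
    (xor (ent val π v₀ i0 p q).1 ((ent val π v₀ i0 p q).2.val y) = true) ↔
      ∃ i, lit val π v₀ i0 y p i = q := by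
  classical
  unfold ent
  split_ifs with h1 h2 h3
  · simp only [Inp.val, Bool.false_xor, true_iff]
    obtain ⟨i, hi, hq⟩ := h1
    refine ⟨i, ?_⟩
    unfold lit
    rw [if_neg (fun h => hi h.1), hq]
  · simp only [Inp.val, Bool.true_xor]
    constructor
    · intro h
      have hy : y (vt val π p) = false := by simpa using h
      refine ⟨i0, ?_⟩
      unfold lit
      rw [if_neg (fun h => by rw [hy] at h; exact absurd h.2 (by decide)), h2]
    · rintro ⟨i, hi⟩
      unfold lit at hi
      split_ifs at hi with h4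
      · rw [h2] at hi
        exact absurd (congrArg Prod.fst hi).symm (hv i0)
      · by_contra hc
        have hy : y (vt val π p) = true := by
          cases hh : y (vt val π p)
          · rw [hh] at hc; exact absurd rfl hc
          · rfl
        have hne : i ≠ i0 := fun h => h4 ⟨h, hy⟩
        exact h1 ⟨i, hne, hi.symm⟩
  · simp only [Inp.val, Bool.false_xor]
    constructor
    · intro h
      refine ⟨i0, ?_⟩
      unfold lit
      rw [if_pos ⟨rfl, h⟩, h3]
    · rintro ⟨i, hi⟩
      unfold lit at hi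
      split_ifs at hi with h4
      · exact h4.2
      · rw [h3] at hi
        exact absurd (congrArg Prod.fst hi) (hv i)
  · simp only [Inp.val, Bool.false_xor]
    constructor
    · intro h
      exact absurd h (by decide)
    · rintro ⟨i, hi⟩
      unfold lit at hi
      split_ifs at hi with h4
      · exact absurd hi.symm h3
      · exfalso
        by_cases h5 : i = i0
        · rw [h5] at hi
          exact h2 hi.symm
        · exact h1 ⟨i, h5, hi.symm⟩

theorem lit_fst_inj (val : Fin k → (Fin n → Bool) → V) (π : Fin k → Fin w → Fin n) (v₀ : Fin n)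
    (i0 : Fin w) (y : V → Bool) (p : Fin k × (Fin w → Bool))
    (hv : ∀ i, π p.1 i ≠ v₀) (hinj : Function.Injective (π p.1)) (i i' : Fin w)
    (h : (lit val π v₀ i0 y p i).1 = (lit val π v₀ i0 y p i').1) : i = i' := by
  unfold lit at h
  split_ifs at h with h1 h2 h2
  · rw [h1.1, h2.1]
  · exact absurd h.symm (hv i')
  · exact absurd h (hv i)
  · exact hinj h

end

theorem T_ENG_holds : T_ENG := by
  classical
  intro V k n m w val W v₀ hk hw hv₀ hW hval
  set π : Fin k → Fin w → Fin n := fun j => (W j).orderEmbOfFin (hW j) with hπ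
  have hπmem : ∀ j i, π j i ∈ W j := fun j i => Finset.orderEmbOfFin_mem _ _ _
  have hπinj : ∀ j, Function.Injective (π j) := fun j => ((W j).orderEmbOfFin (hW j)).injective
  have hπv : ∀ j i, π j i ≠ v₀ := fun j i h => hv₀ j (h ▸ hπmem j i)
  have hπsurj : ∀ j, ∀ i ∈ W j, ∃ t, π j t = i := by
    intro j i hi
    have := Finset.range_orderEmbOfFin (W j) (hW j)
    have h2 : i ∈ Set.range ((W j).orderEmbOfFin (hW j)) := by
      rw [this]; exact hi
    exact h2
  have hkey : ∀ j a, val j a = vt val π (j, a ∘ π j) := by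
    intro j a
    unfold vt
    apply hval
    intro i hi
    obtain ⟨t, rfl⟩ := hπsurj j i hi
    simp only [(hπinj j).extend_apply, Function.comp]
  have hM : 0 < k * 2 ^ w := by positivity
  have hcard : Fintype.card (Fin k × (Fin w → Bool)) = k * 2 ^ w := by simp
  set E : (Fin k × (Fin w → Bool)) ≃ Fin (k * 2 ^ w) := Fintype.equivFinOfCardEq hcard with hE
  set cl : Fin m → Fin k × (Fin w → Bool) := fun c => E.symm ⟨c.1 % (k * 2 ^ w), Nat.mod_lt _ hM⟩ with hcl
  set i0 : Fin w := ⟨0, hw⟩ with hi0
  refine ⟨fun t => (ent val π v₀ i0 (cl t.1) t.2).1, fun t => (ent val π v₀ i0 (cl t.1) t.2).2, ?_⟩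
  have hspec : ∀ (y : V → Bool) (c : Fin m) (q : Fin n × Bool),
      enc (fun t : Fin m × Fin n × Bool => (ent val π v₀ i0 (cl t.1) t.2).1)
        (fun t : Fin m × Fin n × Bool => (ent val π v₀ i0 (cl t.1) t.2).2) y (c, q) = true ↔
        ∃ i, lit val π v₀ i0 y (cl c) i = q := by
    intro y c q
    unfold enc
    exact ent_spec val π v₀ i0 y (cl c) q (hπv _)
  generalize enc (fun t : Fin m × Fin n × Bool => (ent val π v₀ i0 (cl t.1) t.2).1)
        (fun t : Fin m × Fin n × Bool => (ent val π v₀ i0 (cl t.1) t.2).2) = φ at hspec ⊢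
  refine ⟨?_, ?_, ?_⟩
  · intro y c
    constructor
    · unfold width
      have : (univ.filter (fun q : Fin n × Bool => φ y (c, q) = true)) =
          univ.image (lit val π v₀ i0 y (cl c)) := by
        ext q
        simp only [mem_filter, mem_univ, true_and, mem_image, hspec]
      have h2 : (univ.image (lit val π v₀ i0 y (cl c))).card = w := by
        rw [Finset.card_image_of_injective, Finset.card_univ, Fintype.card_fin]
        intro i i' h
        exact lit_fst_inj val π v₀ i0 y (cl c) (hπv _) (hπinj _) i i' (congrArg Prod.fst h)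
      rw [← h2, ← this]
    · intro i
      by_contra hcon
      rw [not_or, Bool.not_eq_false, Bool.not_eq_false] at hcon
      obtain ⟨h1, h2⟩ := hcon
      obtain ⟨t1, ht1⟩ := (hspec y c (i, true)).1 h1
      obtain ⟨t2, ht2⟩ := (hspec y c (i, false)).1 h2
      have : t1 = t2 := lit_fst_inj val π v₀ i0 y (cl c) (hπv _) (hπinj _) t1 t2 (by rw [ht1, ht2])
      rw [this, ht2] at ht1
      have h3 : false = true := congrArg Prod.snd ht1
      exact absurd h3 (by decide)
  · intro y a ha hall c
    cases hy : y (vt val π (cl c))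
    · have hne : a ∘ π (cl c).1 ≠ (cl c).2 := by
        intro h
        have h3 := hall (cl c).1
        rw [hkey, h] at h3
        rw [h3] at hy
        exact absurd hy (by decide)
      obtain ⟨i, hi⟩ := Function.ne_iff.1 hne
      refine ⟨π (cl c).1 i, (hspec y c _).2 ⟨i, ?_⟩⟩
      unfold lit
      rw [if_neg (fun h => by rw [hy] at h; exact absurd h.2 (by decide))]
      have : a (π (cl c).1 i) = !(cl c).2 i := by
        have h4 : a (π (cl c).1 i) ≠ (cl c).2 i := hi
        cases h5 : a (π (cl c).1 i) <;> cases h6 : (cl c).2 i <;> simp_all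
      rw [this]
    · refine ⟨v₀, (hspec y c _).2 ⟨i0, ?_⟩⟩
      unfold lit
      rw [if_pos ⟨rfl, hy⟩, ha]
  · intro y a
    unfold viol
    set J := univ.filter (fun j => y (val j a) = false) with hJ
    have hlt : ∀ (q : Fin (m / (k * 2 ^ w))) (j : Fin k),
        q.1 * (k * 2 ^ w) + (E (j, a ∘ π j)).1 < m := by
      intro q j
      have h1 := (E (j, a ∘ π j)).2
      have h2 : (q.1 + 1) * (k * 2 ^ w) ≤ m / (k * 2 ^ w) * (k * 2 ^ w) :=
        Nat.mul_le_mul_right _ q.2
      have h3 := Nat.div_mul_le_self m (k * 2 ^ w)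
      calc q.1 * (k * 2 ^ w) + (E (j, a ∘ π j)).1 < q.1 * (k * 2 ^ w) + k * 2 ^ w := by omega
        _ = (q.1 + 1) * (k * 2 ^ w) := by ring
        _ ≤ m := h2.trans h3
    have h0 : m / (k * 2 ^ w) * J.card = ((univ : Finset (Fin (m / (k * 2 ^ w)))) ×ˢ J).card := by
      rw [Finset.card_product, Finset.card_univ, Fintype.card_fin]
    rw [h0]
    apply Finset.card_le_card_of_injOn
      (fun t : Fin (m / (k * 2 ^ w)) × Fin k => (⟨t.1.1 * (k * 2 ^ w) + (E (t.2, a ∘ π t.2)).1, hlt t.1 t.2⟩ : Fin m))
    · rintro ⟨q, j⟩ hqj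
      rw [Finset.mem_coe, Finset.mem_product] at hqj
      have hj : y (val j a) = false := (Finset.mem_filter.1 hqj.2).2
      rw [Finset.mem_coe, Finset.mem_filter]
      refine ⟨Finset.mem_univ _, ?_⟩
      intro i
      have hclc : cl ⟨q.1 * (k * 2 ^ w) + (E (j, a ∘ π j)).1, hlt q j⟩ = (j, a ∘ π j) := by
        rw [hcl]
        simp only
        have h5 : (q.1 * (k * 2 ^ w) + (E (j, a ∘ π j)).1) % (k * 2 ^ w) = (E (j, a ∘ π j)).1 := by
          rw [add_comm, Nat.add_mul_mod_self_right]
          exact Nat.mod_eq_of_lt (E (j, a ∘ π j)).2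
        have h6 : (⟨(q.1 * (k * 2 ^ w) + (E (j, a ∘ π j)).1) % (k * 2 ^ w), Nat.mod_lt _ hM⟩ :
            Fin (k * 2 ^ w)) = E (j, a ∘ π j) := Fin.ext h5
        rw [h6, Equiv.symm_apply_apply]
      by_contra hcon
      rw [Bool.not_eq_false] at hcon
      obtain ⟨t, ht⟩ := (hspec y _ _).1 hcon
      rw [hclc] at ht
      unfold lit at ht
      rw [if_neg (fun h => by rw [← hkey, hj] at h; exact absurd h.2 (by decide))] at ht
      have h7 : π j t = i := congrArg Prod.fst ht
      have h8 : (!(a ∘ π j) t) = a i := congrArg Prod.snd ht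
      rw [← h7] at h8
      simp at h8
    · rintro ⟨q, j⟩ _ ⟨q', j'⟩ _ heq
      have h1 : q.1 * (k * 2 ^ w) + (E (j, a ∘ π j)).1 = q'.1 * (k * 2 ^ w) + (E (j', a ∘ π j')).1 :=
        congrArg Fin.val heq
      have hA := (E (j, a ∘ π j)).2
      have hB := (E (j', a ∘ π j')).2
      have h2 : (E (j, a ∘ π j)).1 = (E (j', a ∘ π j')).1 := by
        have := congrArg (fun t => t % (k * 2 ^ w)) h1
        beta_reduce at this
        rw [add_comm, Nat.add_mul_mod_self_right, add_comm (q'.1 * (k * 2 ^ w)), Nat.add_mul_mod_self_right,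
          Nat.mod_eq_of_lt hA, Nat.mod_eq_of_lt hB] at this
        exact this
      have h3 : q.1 * (k * 2 ^ w) = q'.1 * (k * 2 ^ w) := by omega
      have h4 : q.1 = q'.1 := Nat.eq_of_mul_eq_mul_right hM h3
      have h5 : (j, a ∘ π j) = (j', a ∘ π j') := E.injective (Fin.ext h2)
      have h6 : j = j' := congrArg Prod.fst h5
      rw [h6, Fin.ext h4]

end Pool.Agent.H34.GP
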